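import Mathlib
import Pool.Agent.VM.StmtsW

/-!
# Squad VM, module EN1: the set of dilations
-/

set_option autoImplicit false

namespace Pool.Agent.VM.H71

open Pool.Agent.VM Filter Topology

/-- for every `c > 0`, `x ^ c` is eventually larger than any bound -/
theorem ev_rpow (c B : ℝ) (hc : 0 < c) : ∃ D₁ : ℕ, ∀ D : ℕ, D₁ ≤ D → B ≤ (D : ℝ) ^ c := by
  have h := (tendsto_rpow_atTop hc).comp (tendsto_natCast_atTop_atTop (R := ℝ))
  obtain ⟨D₁, hD⟩ := (tendsto_atTop.mp h B).exists_forall_of_atTop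
  exact ⟨D₁, fun D hh => hD D hh⟩

/-- the numerical inequality -/
theorem num_ineq (k c₀ r : ℕ) (hk : 1 ≤ k) (hc : 1 ≤ c₀) (ε C : ℝ) (h0 : 0 < ε) (h1 : ε ≤ 1 / 4)
    (hC : 0 < C) : ∃ D₁ : ℕ, 2 ≤ D₁ ∧ ∀ D q : ℕ, D₁ ≤ D → q ≤ 5 * c₀ ^ 2 * D ^ 2 →
      (q : ℝ) ^ (1 / 2 - ε) + (r : ℝ) +
        C * ((2 * (2 * (D : ℝ)) ^ k)) ^ (1 / (4 * (k : ℝ))) ≤ (D : ℝ) ^ (1 - ε) := by
  have hkR : (1 : ℝ) ≤ (k : ℝ) := by exact_mod_cast hk
  have hcR : (1 : ℝ) ≤ (c₀ : ℝ) := by exact_mod_cast hc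
  obtain ⟨D₁, hD₁⟩ := ev_rpow ε (9 * c₀) h0
  obtain ⟨D₂, hD₂⟩ := ev_rpow (3 / 4) (3 * r) (by norm_num)
  obtain ⟨D₃, hD₃⟩ := ev_rpow (1 / 2) (3 * (4 * C)) (by norm_num)
  refine ⟨max 2 (max D₁ (max D₂ D₃)), le_max_left _ _, ?_⟩
  intro D q hD hq
  have e1 := hD₁ D (le_trans (le_trans (le_max_left _ _) (le_max_right _ _)) hD)
  have e2 := hD₂ D (le_trans (le_trans (le_trans (le_max_left _ _) (le_max_right _ _))
    (le_max_right _ _)) hD)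
  have e3 := hD₃ D (le_trans (le_trans (le_trans (le_max_right _ _) (le_max_right _ _))
    (le_max_right _ _)) hD)
  have hD2 : 2 ≤ D := le_trans (le_max_left _ _) hD
  have hDR : (2 : ℝ) ≤ (D : ℝ) := by exact_mod_cast hD2
  have hD0 : (0 : ℝ) < (D : ℝ) := by linarith
  have hD1 : (1 : ℝ) ≤ (D : ℝ) := by linarith
  -- first term
  have t1 : (q : ℝ) ^ (1 / 2 - ε) ≤ (D : ℝ) ^ (1 - ε) / 3 := by
    have hq' : (q : ℝ) ≤ (3 * c₀ * D) ^ (2 : ℕ) := by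
      have : (q : ℝ) ≤ 5 * (c₀ : ℝ) ^ 2 * (D : ℝ) ^ 2 := by exact_mod_cast hq
      nlinarith [sq_nonneg ((c₀ : ℝ) * D)]
    have hexp : 0 ≤ 1 / 2 - ε := by linarith
    calc (q : ℝ) ^ (1 / 2 - ε) ≤ ((3 * c₀ * D) ^ (2 : ℕ) : ℝ) ^ (1 / 2 - ε) :=
          Real.rpow_le_rpow (by positivity) hq' hexp
      _ = (3 * c₀ * D : ℝ) ^ (1 - 2 * ε) := by
          rw [← Real.rpow_natCast, ← Real.rpow_mul (by positivity)]
          congr 1; push_cast; ring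
      _ = (3 * c₀ : ℝ) ^ (1 - 2 * ε) * (D : ℝ) ^ (1 - 2 * ε) :=
          Real.mul_rpow (by positivity) (by positivity)
      _ ≤ (3 * c₀ : ℝ) * (D : ℝ) ^ (1 - 2 * ε) := by
          apply mul_le_mul_of_nonneg_right _ (by positivity)
          calc (3 * c₀ : ℝ) ^ (1 - 2 * ε) ≤ (3 * c₀ : ℝ) ^ (1 : ℝ) :=
                Real.rpow_le_rpow_of_exponent_le (by linarith) (by linarith)
            _ = 3 * c₀ := Real.rpow_one _
      _ ≤ (D : ℝ) ^ (1 - ε) / 3 := by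
          have h2 : (D : ℝ) ^ (1 - ε) = (D : ℝ) ^ ε * (D : ℝ) ^ (1 - 2 * ε) := by
            rw [← Real.rpow_add hD0]; congr 1; ring
          rw [h2]
          have h3 : 0 < (D : ℝ) ^ (1 - 2 * ε) := Real.rpow_pos_of_pos hD0 _
          nlinarith
  have t2 : (r : ℝ) ≤ (D : ℝ) ^ (1 - ε) / 3 := by
    have : (D : ℝ) ^ (3 / 4 : ℝ) ≤ (D : ℝ) ^ (1 - ε) :=
      Real.rpow_le_rpow_of_exponent_le hD1 (by linarith)
    linarith
  have t3 : C * ((2 * (2 * (D : ℝ)) ^ k)) ^ (1 / (4 * (k : ℝ))) ≤ (D : ℝ) ^ (1 - ε) / 3 := by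
    have h2 : (2 * (2 * (D : ℝ)) ^ k) ^ (1 / (4 * (k : ℝ))) ≤ 4 * (D : ℝ) ^ (1 / 4 : ℝ) := by
      have h4 : (2 * (2 * (D : ℝ)) ^ k) ≤ (4 * (D : ℝ)) ^ k := by
        have : (4 * (D : ℝ)) ^ k = 2 ^ k * (2 * (D : ℝ)) ^ k := by
          rw [← mul_pow]; congr 1; ring
        rw [this]
        apply mul_le_mul_of_nonneg_right _ (by positivity)
        calc (2 : ℝ) = 2 ^ 1 := by norm_num
          _ ≤ 2 ^ k := pow_le_pow_right₀ (by norm_num) hk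
      calc (2 * (2 * (D : ℝ)) ^ k) ^ (1 / (4 * (k : ℝ)))
          ≤ ((4 * (D : ℝ)) ^ k) ^ (1 / (4 * (k : ℝ))) :=
            Real.rpow_le_rpow (by positivity) h4 (by positivity)
        _ = (4 * (D : ℝ)) ^ (1 / 4 : ℝ) := by
            rw [← Real.rpow_natCast, ← Real.rpow_mul (by positivity)]
            congr 1; field_simp
        _ = (4 : ℝ) ^ (1 / 4 : ℝ) * (D : ℝ) ^ (1 / 4 : ℝ) :=
            Real.mul_rpow (by positivity) (by positivity)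
        _ ≤ 4 * (D : ℝ) ^ (1 / 4 : ℝ) := by
            apply mul_le_mul_of_nonneg_right _ (by positivity)
            calc (4 : ℝ) ^ (1 / 4 : ℝ) ≤ (4 : ℝ) ^ (1 : ℝ) :=
                  Real.rpow_le_rpow_of_exponent_le (by norm_num) (by norm_num)
              _ = 4 := Real.rpow_one _
    have h5 : (D : ℝ) ^ (1 / 2 : ℝ) * (D : ℝ) ^ (1 / 4 : ℝ) ≤ (D : ℝ) ^ (1 - ε) := by
      rw [← Real.rpow_add hD0]
      exact Real.rpow_le_rpow_of_exponent_le hD1 (by linarith)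
    have h6 : 0 < (D : ℝ) ^ (1 / 4 : ℝ) := Real.rpow_pos_of_pos hD0 _
    have h7 : C * (2 * (2 * (D : ℝ)) ^ k) ^ (1 / (4 * (k : ℝ))) ≤
        C * (4 * (D : ℝ) ^ (1 / 4 : ℝ)) := mul_le_mul_of_nonneg_left h2 hC.le
    nlinarith
  linarith

/-- EN1 -/
theorem en1 (k c₀ : ℕ) (hk : 3 ≤ k) (hc : 1 ≤ c₀) (num : NumP k c₀) (prm : PrmStmt)
    (rtu : RtuStmt) (dir : DirStmt) (dvd : DvdStmt) (off : OffStmt) (pdv : PdvStmt) :
    En1Stmt k c₀ := by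
  intro ε₀ hε₀
  -- reduce to a small `ε`
  set ε : ℝ := min ε₀ (1 / 4) with hεdef
  have hε : 0 < ε := lt_min hε₀ (by norm_num)
  have hε4 : ε ≤ 1 / 4 := min_le_right _ _
  have hεε : ε ≤ ε₀ := min_le_left _ _
  have hk1 : 1 ≤ k := by omega
  have hkR : (1 : ℝ) ≤ (k : ℝ) := by exact_mod_cast hk1
  obtain ⟨C, hC, hrtu⟩ := rtu k hk1 (1 / (4 * (k : ℝ))) (by positivity)
  obtain ⟨Dp, hprm⟩ := prm ε hε
  obtain ⟨D₁, hD₁2, hnum⟩ := num_ineq k c₀ (4 * k + 8) hk1 hc ε C hε hε4 hC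
  obtain ⟨q₀, hq₀⟩ := num (max Dp D₁)
  refine ⟨max q₀ 1, ?_⟩
  intro q D K t a hq hD hK hcop hta u₁ u₂ hu₁ hu₂ hu₁D hu₂D
  obtain ⟨n1, n2, n3, n4, n5, n6, n7, n8, n9, n10, n11, n12, n13, n14, n15⟩ :=
    hq₀ q D K (le_trans (le_max_left _ _) hq) hD hK
  have hq1 : 1 ≤ q := le_trans (le_max_right _ _) hq
  have hDp : Dp ≤ D := le_trans (le_max_left _ _) n1
  have hDD₁ : D₁ ≤ D := le_trans (le_max_right _ _) n1
  have hD2 : 2 ≤ D := le_trans hD₁2 hDD₁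
  obtain ⟨b₀, u₀, hu₀1, hu₀Q, hqu₀, hcop₀, ht₀⟩ := dir t a q (2 * (2 * D) ^ k) hq1 hcop hta
    (by omega)
  classical
  -- the sets
  set Pr : Finset ℕ := (Finset.Ioc D (2 * D)).filter Nat.Prime with hPr
  set Bd : Finset ℕ := (Finset.Ioc D (2 * D)).filter (fun d => d.Prime ∧ d ∣ u₀ * u₁ * u₂) with hBd
  set Pa : Finset (ℕ × ℕ) := ((Finset.Ioc D (2 * D)) ×ˢ (Finset.Ioc D (2 * D))).filter
    (fun v => v.1.Prime ∧ v.2.Prime ∧ v.1 ≠ v.2 ∧ ¬ v.1 ∣ u₀ ∧ ¬ v.2 ∣ u₀ ∧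
      v.1 ^ k ≡ v.2 ^ k [MOD u₀]) with hPa
  set S : Finset ℕ := (Pr \ Bd) \ (Pa.image Prod.fst) with hS
  have hSmem : ∀ d ∈ S, D < d ∧ d ≤ 2 * D ∧ d.Prime ∧ ¬ d ∣ u₀ ∧ ¬ d ∣ u₁ ∧ ¬ d ∣ u₂ := by
    intro d hd
    rw [hS, Finset.mem_sdiff, Finset.mem_sdiff, hPr, Finset.mem_filter, Finset.mem_Ioc] at hd
    obtain ⟨⟨⟨⟨h1, h2⟩, h3⟩, h4⟩, -⟩ := hd
    have h5 : ¬ d ∣ u₀ * u₁ * u₂ := by
      intro h
      apply h4
      rw [hBd, Finset.mem_filter, Finset.mem_Ioc]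
      exact ⟨⟨h1, h2⟩, h3, h⟩
    refine ⟨h1, h2, h3, ?_, ?_, ?_⟩
    · intro h; exact h5 (Dvd.dvd.mul_right (Dvd.dvd.mul_right h _) _)
    · intro h; exact h5 (Dvd.dvd.mul_right (Dvd.dvd.mul_left h _) _)
    · intro h; exact h5 (Dvd.dvd.mul_left h _)
  refine ⟨S, ?_, ?_, ?_⟩
  · intro d hd
    obtain ⟨h1, h2, h3, -, h5, h6⟩ := hSmem d hd
    exact ⟨h1, h2, h3, h5, h6⟩
  · -- the cardinality
    have c1 : (D : ℝ) ^ (1 - ε) ≤ (Pr.card : ℝ) := hprm D hDp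
    have c2 : Bd.card < 4 * k + 8 := by
      apply pdv D (4 * k + 8) (u₀ * u₁ * u₂) hD2
      · exact Nat.mul_pos (Nat.mul_pos hu₀1 hu₁) hu₂
      · have h1 : u₀ ≤ D ^ (2 * k + 1) := by
          calc u₀ ≤ 2 * (2 * D) ^ k := hu₀Q
            _ ≤ D * (D * D) ^ k := by
                apply Nat.mul_le_mul hD2
                exact Nat.pow_le_pow_left (Nat.mul_le_mul hD2 le_rfl) k
            _ = D ^ (2 * k + 1) := by rw [← pow_two, ← pow_mul]; ring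
        calc u₀ * u₁ * u₂ < D ^ (2 * k + 1) * D ^ (k + 3) * D ^ (k + 3) := by
              have hDpos : 0 < D := by omega
              calc u₀ * u₁ * u₂ ≤ (D ^ (2 * k + 1) * D ^ (k + 3)) * u₂ :=
                    Nat.mul_le_mul (Nat.mul_le_mul h1 hu₁D.le) le_rfl
                _ < (D ^ (2 * k + 1) * D ^ (k + 3)) * D ^ (k + 3) :=
                    Nat.mul_lt_mul_of_pos_left hu₂D (by positivity)
          _ = D ^ (4 * k + 7) := by rw [← pow_add, ← pow_add]; congr 1; ring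
          _ ≤ D ^ (4 * k + 8) := Nat.pow_le_pow_right (by omega) (by omega)
    have c3 : ((Pa.image Prod.fst).card : ℝ) ≤ C * (2 * (2 * (D : ℝ)) ^ k) ^ (1 / (4 * (k : ℝ))) := by
      have e1 : (Pa.image Prod.fst).card ≤ Pa.card := Finset.card_image_le
      have e2 : Pa.card ≤ ((Finset.range u₀).filter
          (fun x => Nat.Coprime x u₀ ∧ x ^ k ≡ 1 [MOD u₀])).card :=
        off k D u₀ hk1 (by omega)
      have e3 := hrtu u₀ hu₀1
      have e4 : ((u₀ : ℝ)) ^ (1 / (4 * (k : ℝ))) ≤ (2 * (2 * (D : ℝ)) ^ k) ^ (1 / (4 * (k : ℝ))) := by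
        apply Real.rpow_le_rpow (by positivity) _ (by positivity)
        exact_mod_cast hu₀Q
      calc ((Pa.image Prod.fst).card : ℝ) ≤ (Pa.card : ℝ) := by exact_mod_cast e1
        _ ≤ _ := by exact_mod_cast e2
        _ ≤ C * (u₀ : ℝ) ^ (1 / (4 * (k : ℝ))) := e3
        _ ≤ _ := mul_le_mul_of_nonneg_left e4 hC.le
    have c4 : (Pr.card : ℝ) ≤ (S.card : ℝ) + Bd.card + (Pa.image Prod.fst).card := by
      have h1 : Pr.card ≤ (Pr \ Bd).card + Bd.card := by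
        have := Finset.le_card_sdiff Bd Pr
        omega
      have h2 : (Pr \ Bd).card ≤ S.card + (Pa.image Prod.fst).card := by
        have := Finset.le_card_sdiff (Pa.image Prod.fst) (Pr \ Bd)
        rw [← hS] at this
        omega
      have h3 : Pr.card ≤ S.card + Bd.card + (Pa.image Prod.fst).card := by omega
      exact_mod_cast h3
    have c5 : (Bd.card : ℝ) ≤ ((4 * k + 8 : ℕ) : ℝ) := by exact_mod_cast c2.le
    have c6 := hnum D q hDD₁ n15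
    have c7 : (q : ℝ) ^ (1 / 2 - ε₀) ≤ (q : ℝ) ^ (1 / 2 - ε) :=
      Real.rpow_le_rpow_of_exponent_le (by exact_mod_cast hq1) (by linarith)
    linarith
  · -- no pairs
    intro d hd d' hd' hne hNr
    obtain ⟨h1, h2, h3, h4, -, -⟩ := hSmem d hd
    obtain ⟨h1', h2', h3', h4', -, -⟩ := hSmem d' hd'
    have hdvd : (u₀ : ℤ) ∣ (d : ℤ) ^ k - (d' : ℤ) ^ k := by
      apply dvd t (1 / (K : ℝ) ^ k) b₀ u₀ (2 * (2 * D) ^ k) _ hu₀1 hu₀Q hcop₀
      · exact_mod_cast ht₀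
      · have a1 : (d : ℤ) ^ k ≤ (2 * D : ℤ) ^ k := by
          apply pow_le_pow_left₀ (by positivity); exact_mod_cast h2
        have a2 : (d' : ℤ) ^ k ≤ (2 * D : ℤ) ^ k := by
          apply pow_le_pow_left₀ (by positivity); exact_mod_cast h2'
        have a3 : 0 ≤ (d : ℤ) ^ k := by positivity
        have a4 : 0 ≤ (d' : ℤ) ^ k := by positivity
        have a5 : |(d : ℤ) ^ k - (d' : ℤ) ^ k| ≤ (2 * D : ℤ) ^ k := by
          rw [abs_le]; constructor <;> linarith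
        push_cast
        linarith
      · have hK0 : (0 : ℝ) < (K : ℝ) := by exact_mod_cast n2
        have hD0 : (0 : ℝ) < (D : ℝ) := by exact_mod_cast (by omega : 0 < D)
        have b1 : (4 : ℝ) * (2 * (D : ℝ)) ^ k < (K : ℝ) ^ k := by exact_mod_cast n8
        rw [one_div, one_div]
        apply inv_strictAnti₀ (by positivity)
        push_cast
        linarith
      · have : (((d : ℤ) ^ k - (d' : ℤ) ^ k : ℤ) : ℝ) = (d : ℝ) ^ k - (d' : ℝ) ^ k := by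
          push_cast; ring
        rw [this]; exact hNr
    have hmod : d ^ k ≡ d' ^ k [MOD u₀] := by
      rw [← Int.natCast_modEq_iff]
      push_cast
      exact (Int.modEq_iff_dvd.mpr (by
        have := (dvd_neg.mpr hdvd)
        rwa [neg_sub] at this))
    rw [hS, Finset.mem_sdiff] at hd
    apply hd.2
    rw [Finset.mem_image]
    refine ⟨(d, d'), ?_, rfl⟩
    rw [hPa, Finset.mem_filter, Finset.mem_product, Finset.mem_Ioc, Finset.mem_Ioc]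
    exact ⟨⟨⟨h1, h2⟩, ⟨h1', h2'⟩⟩, h3, h3', hne, h4, h4', hmod⟩

end Pool.Agent.VM.H71
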